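import Mathlib

set_option autoImplicit false

open MvPolynomial

namespace Pool.Agent.Results.MP_a59f64_al.Disproof

variable {K : Type*} [Field K]

/-- `p` is a coordinate polynomial of `K[x_1,…,x_n]` (here `n = m + 1 ≥ 1` and `x_1` is `X 0`):
there are `p_2,…,p_n` with `K[p,p_2,…,p_n]` the whole polynomial ring. -/
def IsCoordinate {m : ℕ} (p : MvPolynomial (Fin (m + 1)) K) : Prop :=
  ∃ q : Fin (m + 1) → MvPolynomial (Fin (m + 1)) K, q 0 = p ∧ Algebra.adjoin K (Set.range q) = ⊤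

/-- A surjective endomorphism of a Noetherian ring is injective. -/
theorem inj_of_surj {A : Type*} [CommRing A] [IsNoetherianRing A] (θ : A →+* A)
    (h : Function.Surjective θ) : Function.Injective θ := by
  have hm : Monotone (fun n : ℕ => RingHom.ker (θ ^ n)) := by
    apply monotone_nat_of_le_succ
    intro n x hx
    rw [RingHom.mem_ker] at hx ⊢
    rw [pow_succ', RingHom.coe_mul, Function.comp_apply, hx, map_zero]
  obtain ⟨N, hN⟩ := monotone_stabilizes_iff_noetherian.mpr ‹_› ⟨_, hm⟩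
  have hs : Function.Surjective (θ ^ N) := by
    rw [RingHom.coe_pow]
    exact h.iterate N
  rw [injective_iff_map_eq_zero]
  intro x hx
  obtain ⟨y, rfl⟩ := hs x
  have h1 : y ∈ RingHom.ker (θ ^ (N + 1)) := by
    rw [RingHom.mem_ker, pow_succ', RingHom.coe_mul, Function.comp_apply, hx]
  have h2 := hN (N + 1) (Nat.le_succ N)
  have h3 : y ∈ RingHom.ker (θ ^ N) := by
    have : RingHom.ker (θ ^ N) = RingHom.ker (θ ^ (N + 1)) := h2
    rw [this]; exact h1
  exact h3

section core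

variable {ι : Type*} [DecidableEq ι]

/-- set the variable `i0` to one. -/
noncomputable def ev (i0 : ι) : MvPolynomial ι K →ₐ[K] MvPolynomial {i : ι // i ≠ i0} K :=
  aeval (fun i => if h : i = i0 then 1 else X ⟨i, h⟩)

theorem ev_surj (i0 : ι) : Function.Surjective (ev (K := K) i0) := by
  intro r
  refine ⟨rename (fun i => i.1) r, ?_⟩
  rw [ev, aeval_rename]
  have : ((fun i : ι => if h : i = i0 then (1 : MvPolynomial {i : ι // i ≠ i0} K) else X ⟨i, h⟩) ∘
      fun i : {i : ι // i ≠ i0} => i.1) = X := by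
    funext i
    simp [i.2]
  rw [this]
  exact aeval_X_left_apply r

theorem ev_ker (i0 : ι) (h : MvPolynomial ι K) (hh : ev i0 h = 0) : (X i0 - 1) ∣ h := by
  rw [← Ideal.mem_span_singleton, ← Ideal.Quotient.eq_zero_iff_mem]
  set I : Ideal (MvPolynomial ι K) := Ideal.span {X i0 - 1}
  have key : (Ideal.Quotient.mkₐ K I) =
      ((Ideal.Quotient.mkₐ K I).comp (rename (fun i : {i : ι // i ≠ i0} => i.1))).comp (ev i0) := by
    apply MvPolynomial.algHom_ext
    intro i
    simp only [AlgHom.comp_apply, ev, aeval_X]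
    split_ifs with hi
    · subst hi
      rw [map_one, map_one]
      simp only [Ideal.Quotient.mkₐ_eq_mk]
      rw [← sub_eq_zero, ← map_one (Ideal.Quotient.mk I), ← map_sub, Ideal.Quotient.eq_zero_iff_mem]
      exact Ideal.mem_span_singleton_self _
    · simp
  have := DFunLike.congr_fun key h
  rw [AlgHom.comp_apply, hh, map_zero] at this
  simpa using this

/-- the non-coordinate polynomial -/
noncomputable def pp (i0 i1 i2 : ι) : MvPolynomial ι K :=
  X i0 + X i0 ^ 2 * X i1 + X i2 ^ 2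

/-- the parametrisation of the hypersurface `p = 1` over `K(x)[z]` -/
noncomputable def Lam (i0 i1 i2 : ι) : MvPolynomial ι K →ₐ[K] Polynomial (RatFunc K) :=
  aeval (fun i => if i = i0 then Polynomial.C RatFunc.X else
    if i = i1 then (1 - Polynomial.C RatFunc.X - Polynomial.X ^ 2) *
      Polynomial.C ((RatFunc.X ^ 2)⁻¹) else
    if i = i2 then Polynomial.X else 0)

/-- a curve on the hypersurface `p = 1` -/
noncomputable def cur (i0 i1 i2 : ι) (ε : K) : MvPolynomial ι K →ₐ[K] Polynomial K :=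
  aeval (fun i => if i = i0 then Polynomial.X else
    if i = i1 then Polynomial.C (-1/4) else
    if i = i2 then Polynomial.C ε * (1 - Polynomial.C (1/2) * Polynomial.X) else 0)

variable {i0 i1 i2 : ι}

theorem Lam_pp (h01 : i1 ≠ i0) (h02 : i2 ≠ i0) (h12 : i2 ≠ i1) :
    Lam (K := K) i0 i1 i2 (pp i0 i1 i2 - 1) = 0 := by
  have hx : (RatFunc.X : RatFunc K) ≠ 0 := RatFunc.X_ne_zero
  simp only [Lam, pp, map_sub, map_add, map_mul, map_pow, aeval_X, map_one]
  simp only [if_true, h01, h02, h12, if_false]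
  have e : (Polynomial.C (RatFunc.X : RatFunc K)) ^ 2 * Polynomial.C ((RatFunc.X ^ 2)⁻¹) = 1 := by
    rw [← Polynomial.C_pow, ← Polynomial.C_mul, mul_inv_cancel₀ (pow_ne_zero 2 hx), Polynomial.C_1]
  linear_combination (1 - Polynomial.C RatFunc.X - Polynomial.X ^ 2) * e

theorem cur_eq [CharZero K] (h01 : i1 ≠ i0) (h02 : i2 ≠ i0) (h12 : i2 ≠ i1) (ε : K) (hε : ε ^ 2 = 1)
    (f : MvPolynomial ι K) (r : RatFunc K) (hf : Lam i0 i1 i2 f = Polynomial.C r) :
    algebraMap (Polynomial K) (RatFunc K) (cur i0 i1 i2 ε f) = r := by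
  have hx : (RatFunc.X : RatFunc K) ≠ 0 := RatFunc.X_ne_zero
  have key : (IsScalarTower.toAlgHom K (Polynomial K) (RatFunc K)).comp (cur i0 i1 i2 ε) =
      ((Polynomial.aeval (R := RatFunc K) (algebraMap (Polynomial K) (RatFunc K)
        (Polynomial.C ε * (1 - Polynomial.C (1/2) * Polynomial.X)))).restrictScalars K).comp
          (Lam i0 i1 i2) := by
    apply MvPolynomial.algHom_ext
    intro i
    simp only [AlgHom.comp_apply, cur, Lam, aeval_X, AlgHom.restrictScalars_apply]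
    by_cases hi0 : i = i0
    · simp [hi0]
    by_cases hi1 : i = i1
    · subst hi1
      simp only [if_neg hi0, if_true]
      simp
      have hε' : (RatFunc.C ε : RatFunc K) ^ 2 = 1 := by
        rw [← map_pow, hε, map_one]
      field_simp
      rw [hε', show (RatFunc.C (2 : K) : RatFunc K) = 2 from map_ofNat _ 2,
        show (RatFunc.C (4 : K) : RatFunc K) = 4 from map_ofNat _ 4]
      ring
    by_cases hi2 : i = i2
    · subst hi2
      simp [hi0, hi1]
    · simp [hi0, hi1, hi2]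
  have := DFunLike.congr_fun key f
  simpa [hf] using this

/-- The core argument: `K[x,…]/(p-1)` is not the quotient by `x - 1` seen through an automorphism. -/
theorem core_false [CharZero K] (h01 : i1 ≠ i0) (h02 : i2 ≠ i0) (h12 : i2 ≠ i1)
    (θ : MvPolynomial ι K →ₐ[K] MvPolynomial ι K) (hθ : Function.Bijective θ)
    (hp : θ (X i0) = pp i0 i1 i2) : False := by
  obtain ⟨e, he⟩ : ∃ e : MvPolynomial ι K ≃ₐ[K] MvPolynomial ι K, ∀ h, e h = θ h :=
    ⟨AlgEquiv.ofBijective θ hθ, fun _ => rfl⟩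
  obtain ⟨ψ, hψ⟩ : ∃ ψ : MvPolynomial ι K →ₐ[K] MvPolynomial {i : ι // i ≠ i0} K,
      ∀ h, ψ h = ev i0 (e.symm h) := ⟨(ev i0).comp (e.symm : MvPolynomial ι K →ₐ[K] MvPolynomial ι K),
        fun _ => rfl⟩
  have hψs : Function.Surjective ψ := by
    intro r
    obtain ⟨t, ht⟩ := ev_surj i0 r
    exact ⟨e t, by rw [hψ, e.symm_apply_apply, ht]⟩
  have hψk : ∀ h, ψ h = 0 → (pp i0 i1 i2 - 1) ∣ h := by
    intro h hh
    rw [hψ] at hh
    obtain ⟨k, hk⟩ := ev_ker i0 _ hh
    refine ⟨θ k, ?_⟩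
    have : h = θ (e.symm h) := by rw [← he, e.apply_symm_apply]
    rw [this, hk, map_mul, map_sub, hp, map_one]
  have hψp : ψ (pp i0 i1 i2) = 1 := by
    have : e.symm (pp i0 i1 i2) = X i0 := by
      rw [← hp, ← he, e.symm_apply_apply]
    rw [hψ, this]
    simp [ev]
  have hdvd : ψ (X i0) ∣ (1 - ψ (X i2)) * (1 + ψ (X i2)) := by
    refine ⟨ψ (X i0) * ψ (X i1) + 1, ?_⟩
    have h1 : ψ (X i0) + ψ (X i0) ^ 2 * ψ (X i1) + ψ (X i2) ^ 2 = 1 := by
      rw [← hψp]
      simp only [pp, map_add, map_mul, map_pow]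
    linear_combination -h1
  obtain ⟨a1, a2, ⟨b1, hb1⟩, ⟨b2, hb2⟩, hab⟩ := exists_dvd_and_dvd_of_dvd_mul hdvd
  obtain ⟨f, rfl⟩ := hψs a1
  obtain ⟨g, rfl⟩ := hψs a2
  obtain ⟨h1, rfl⟩ := hψs b1
  obtain ⟨h2, rfl⟩ := hψs b2
  obtain ⟨k0, hk0⟩ := hψk (X i0 - f * g) (by rw [map_sub, map_mul, hab, sub_self])
  obtain ⟨k1, hk1⟩ := hψk (1 - X i2 - f * h1) (by rw [map_sub, map_sub, map_mul, map_one, hb1, sub_self])
  obtain ⟨k2, hk2⟩ := hψk (1 + X i2 - g * h2) (by rw [map_sub, map_add, map_mul, map_one, hb2, sub_self])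
  -- the images in `K(x)[z]` are constants
  have hx : (RatFunc.X : RatFunc K) ≠ 0 := RatFunc.X_ne_zero
  have hL : Lam i0 i1 i2 f * Lam i0 i1 i2 g = Polynomial.C (RatFunc.X : RatFunc K) := by
    have := congrArg (Lam i0 i1 i2) hk0
    rw [map_mul, Lam_pp h01 h02 h12, zero_mul, map_sub, map_mul] at this
    rw [← sub_eq_zero.mp this]
    simp [Lam]
  have hdeg : (Lam (K := K) i0 i1 i2 f).natDegree = 0 ∧ (Lam (K := K) i0 i1 i2 g).natDegree = 0 := by
    have hne : Lam i0 i1 i2 f * Lam i0 i1 i2 g ≠ 0 := by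
      rw [hL]; simpa using hx
    have := congrArg Polynomial.natDegree hL
    rw [Polynomial.natDegree_mul (left_ne_zero_of_mul hne) (right_ne_zero_of_mul hne),
      Polynomial.natDegree_C] at this
    omega
  obtain ⟨r, hr⟩ := Polynomial.natDegree_eq_zero.mp hdeg.1
  obtain ⟨s, hs⟩ := Polynomial.natDegree_eq_zero.mp hdeg.2
  have hinj := RatFunc.algebraMap_injective K
  have ef : cur i0 i1 i2 (1 : K) f = cur i0 i1 i2 (-1 : K) f := by
    apply hinj
    rw [cur_eq h01 h02 h12 1 (by norm_num) f r hr.symm,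
      cur_eq h01 h02 h12 (-1) (by norm_num) f r hr.symm]
  have eg : cur i0 i1 i2 (1 : K) g = cur i0 i1 i2 (-1 : K) g := by
    apply hinj
    rw [cur_eq h01 h02 h12 1 (by norm_num) g s hs.symm,
      cur_eq h01 h02 h12 (-1) (by norm_num) g s hs.symm]
  have cp : ∀ ε : K, ε ^ 2 = 1 → cur i0 i1 i2 ε (pp i0 i1 i2 - 1) = 0 := by
    intro ε hε
    apply hinj
    rw [cur_eq h01 h02 h12 ε hε _ 0 (by rw [Lam_pp h01 h02 h12, map_zero]), map_zero]
  have c0 := congrArg (cur i0 i1 i2 (1 : K)) hk0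
  have c1 := congrArg (cur i0 i1 i2 (-1 : K)) hk1
  have c2 := congrArg (cur i0 i1 i2 (1 : K)) hk2
  rw [map_mul, cp _ (by norm_num), zero_mul, map_sub, map_mul, sub_eq_zero] at c0 c1 c2
  have d0 := congrArg (Polynomial.eval 0) c0
  have d1 := congrArg (Polynomial.eval 0) c1
  have d2 := congrArg (Polynomial.eval 0) c2
  rw [← ef] at d1
  rw [Polynomial.eval_mul] at d0 d1 d2
  have e0 : Polynomial.eval 0 (cur i0 i1 i2 (1 : K) (X i0)) = 0 := by simp [cur]
  have e1 : Polynomial.eval 0 (cur i0 i1 i2 (-1 : K) (1 - X i2)) = 2 := by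
    simp [cur, h02, h12]; norm_num
  have e2 : Polynomial.eval 0 (cur i0 i1 i2 (1 : K) (1 + X i2)) = 2 := by
    simp [cur, h02, h12]; norm_num
  rw [e0] at d0
  rw [e1] at d1
  rw [e2] at d2
  have n1 : Polynomial.eval 0 (cur i0 i1 i2 (1 : K) f) ≠ 0 := by
    intro h; rw [h, zero_mul] at d1; norm_num at d1
  have n2 : Polynomial.eval 0 (cur i0 i1 i2 (1 : K) g) ≠ 0 := by
    intro h; rw [h, zero_mul] at d2; norm_num at d2
  exact mul_ne_zero n1 n2 d0.symm

end core

theorem not_coordinate [CharZero K] {m : ℕ} (i1 i2 : Fin (m + 1)) (h01 : i1 ≠ 0) (h02 : i2 ≠ 0)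
    (h12 : i2 ≠ i1) : ¬ IsCoordinate (pp 0 i1 i2 : MvPolynomial (Fin (m + 1)) K) := by
  rintro ⟨q, hq0, hq⟩
  have hs : Function.Surjective (aeval q : MvPolynomial (Fin (m + 1)) K →ₐ[K] _) := by
    rw [← AlgHom.range_eq_top, ← Algebra.adjoin_range_eq_range_aeval, hq]
  exact core_false h01 h02 h12 (aeval q) ⟨inj_of_surj (aeval q : MvPolynomial (Fin (m + 1)) K →ₐ[K]
    MvPolynomial (Fin (m + 1)) K).toRingHom hs, hs⟩ (by rw [aeval_X, hq0])

section phi

variable {ι : Type*} [DecidableEq ι]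

/-- `D = x_1 - x_3²` -/
noncomputable def DD (i0 i2 : ι) : MvPolynomial ι K := X i0 - X i2 ^ 2

/-- the injective endomorphism -/
noncomputable def phi (i0 i1 i2 : ι) : MvPolynomial ι K →ₐ[K] MvPolynomial ι K :=
  aeval (fun i => if i = i0 then DD i0 i2 else
    if i = i1 then - 2 * X i2 * X i1 - DD i0 i2 ^ 2 * X i1 ^ 2 else
    if i = i2 then X i2 + DD i0 i2 ^ 2 * X i1 else X i)

theorem phi_pp {i0 i1 i2 : ι} (h01 : i1 ≠ i0) (h02 : i2 ≠ i0) (h12 : i2 ≠ i1) :
    phi (K := K) i0 i1 i2 (pp i0 i1 i2) = X i0 := by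
  simp only [phi, pp, map_add, map_mul, map_pow, aeval_X]
  simp only [if_true, h01, h02, h12, if_false]
  simp only [DD]
  ring

theorem phi_key {i0 i1 i2 : ι} (h01 : i1 ≠ i0) (h02 : i2 ≠ i0) (h12 : i2 ≠ i1)
    (L : Type*) [Field L] [IsAlgClosed L] [Algebra K L] (f : MvPolynomial ι K)
    (hf : phi i0 i1 i2 f = 0) (c : ι → L) (hc : c i0 ≠ 0) : aeval c f = 0 := by
  obtain ⟨w, hw⟩ := IsAlgClosed.exists_pow_nat_eq (c i0 ^ 2 * c i1 + c i2 ^ 2) (n := 2) (by norm_num)
  let b : ι → L := fun i => if i = i0 then c i0 + w ^ 2 else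
    if i = i1 then (c i2 - w) / (c i0 ^ 2) else if i = i2 then w else c i
  have hb0 : b i0 = c i0 + w ^ 2 := by simp [b]
  have hb1 : b i1 = (c i2 - w) / (c i0 ^ 2) := by simp [b, h01]
  have hb2 : b i2 = w := by simp [b, h02, h12]
  have hc' : ((aeval b : MvPolynomial ι K →ₐ[K] L).comp (phi i0 i1 i2)) = aeval c := by
    apply MvPolynomial.algHom_ext
    intro i
    simp only [AlgHom.comp_apply, phi, aeval_X]
    by_cases hi0 : i = i0
    · subst hi0
      simp [DD, hb0, hb2]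
    by_cases hi1 : i = i1
    · subst hi1
      simp only [if_neg hi0, if_true]
      simp only [DD, map_sub, map_mul, map_pow, aeval_X, map_neg, map_ofNat, hb0, hb1, hb2]
      field_simp
      linear_combination (c i0 ^ 2) * hw
    by_cases hi2 : i = i2
    · subst hi2
      simp only [if_neg hi0, if_neg hi1, if_true]
      simp only [DD, map_sub, map_add, map_mul, map_pow, aeval_X, hb0, hb1, hb2]
      field_simp
      ring
    · simp [hi0, hi1, hi2, b]
  rw [← hc', AlgHom.comp_apply, hf, map_zero]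

theorem phi_inj {i0 i1 i2 : ι} (h01 : i1 ≠ i0) (h02 : i2 ≠ i0) (h12 : i2 ≠ i1) :
    Function.Injective (phi (K := K) i0 i1 i2) := by
  rw [injective_iff_map_eq_zero]
  intro f hf
  have h2 : (X i0 : MvPolynomial ι (AlgebraicClosure K)) *
      map (algebraMap K (AlgebraicClosure K)) f = 0 := by
    apply MvPolynomial.funext
    intro c
    rw [map_mul, eval_X, map_zero]
    by_cases hc : c i0 = 0
    · rw [hc, zero_mul]
    · have := phi_key h01 h02 h12 (AlgebraicClosure K) f hf c hc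
      rw [eval_map, ← aeval_def, this, mul_zero]
  have h3 : map (algebraMap K (AlgebraicClosure K)) f = 0 := by
    rcases mul_eq_zero.mp h2 with h | h
    · exact absurd h (X_ne_zero i0)
    · exact h
  exact (map_eq_zero_iff _ (map_injective _ (algebraMap K (AlgebraicClosure K)).injective)).mp h3

end phi

/-- For every field `K` of characteristic zero and every `n = m + 3 ≥ 3` there are an injective
endomorphism `φ` of `K[x_1,…,x_n]` and a polynomial `p` with `φ(p) = x_1` which is not a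
coordinate polynomial. -/
theorem result (K : Type*) [Field K] [CharZero K] (m : ℕ) :
    ∃ (φ : MvPolynomial (Fin (m + 3)) K →ₐ[K] MvPolynomial (Fin (m + 3)) K)
      (p : MvPolynomial (Fin (m + 3)) K),
      Function.Injective φ ∧ φ p = X 0 ∧ ¬ IsCoordinate p := by
  have h01 : (1 : Fin (m + 3)) ≠ 0 := by simp
  have h2v : (2 : Fin (m + 3)).val = 2 := Fin.val_two
  have h02 : (2 : Fin (m + 3)) ≠ 0 := by
    intro h
    rw [h] at h2v
    simp at h2v
  have h12 : (2 : Fin (m + 3)) ≠ 1 := by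
    intro h
    rw [h] at h2v
    simp at h2v
  exact ⟨phi 0 1 2, pp 0 1 2, phi_inj h01 h02 h12, phi_pp h01 h02 h12, not_coordinate 1 2 h01 h02 h12⟩

end Pool.Agent.Results.MP_a59f64_al.Disproof
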